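import Mathlib
import Pool.Agent.R361.Dif.Final

/-!
# `UC + e^{it²} UC` has the difference property `(Δ)`

Functions on `J` are represented by functions `ℝ → X` of which only the values on `J` are used.
Definitions (in `Pool/Agent/R361/Dif/Basic.lean` and `Pool/Agent/R361/Dif/Final.lean`):
* `Diff a f t = f (t + a) - f t`, `Avg h f t = (1/h) ∫_t^{t+h} f(s) ds`;
* `L1loc J f`: `f` is Bochner integrable on `[a, b]` for all `a`, `b` in `J`;
* `InUCsum J F`: there are `u`, `v`, uniformly continuous on `J`, with
  `F t = u t + exp(i t²) • v t` on `J`.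

Proof (found by helper270). If `Δ_a f = u_a + g v_a`, the cocycle relation of the differences and
half-turns `g(t + s) = -g(t)` with `s = O(1/|t|)` show that
`v_{a+b} = v_b + e^{i(b² + 2tb)} v_a(· + b) + O(1)`; exchanging `a` and `b = a/2` gives that `v_a` is
bounded. Theorem B (the bounded case, in `Main.lean`) applied to `f - M_h f` and the property `(Δ)` of
`UC` for the continuous function `M_1 f` finish the proof.
-/

set_option autoImplicit false

namespace Pool.Agent.Results.MP_840fa9_an.DeltaUC

open Set MeasureTheory Pool.Agent.R361.Dif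

/-- The intervals `[α, ∞)`, `(α, ∞)` and `ℝ`. -/
def Admissible (J : Set ℝ) : Prop := (∃ α : ℝ, J = Ici α) ∨ (∃ α : ℝ, J = Ioi α) ∨ J = univ

lemma Admissible.upper {J : Set ℝ} (h : Admissible J) : IsUpperSet J := by
  rcases h with ⟨α, rfl⟩ | ⟨α, rfl⟩ | rfl
  · exact isUpperSet_Ici α
  · exact isUpperSet_Ioi α
  · exact isUpperSet_univ

lemma Admissible.nonempty {J : Set ℝ} (h : Admissible J) : J.Nonempty := by
  rcases h with ⟨α, rfl⟩ | ⟨α, rfl⟩ | rfl
  · exact nonempty_Ici
  · exact nonempty_Ioi
  · exact univ_nonempty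

/-- For every admissible interval `J` and every complex Banach space `X`, the set
`UC(J, X) + g UC(J, X)`, `g(t) = e^{it²}`, satisfies `(Δ)`. -/
theorem result {X : Type*} [NormedAddCommGroup X] [NormedSpace ℂ X] [CompleteSpace X] (J : Set ℝ)
    (hJ : Admissible J) (f : ℝ → X) (hf : L1loc J f) (hA : ∀ a > 0, InUCsum J (Diff a f)) :
    ∀ h > 0, InUCsum J (fun t => f t - Avg h f t) :=
  fun _ hh => main_UC hJ.upper hJ.nonempty hf hA hh

end Pool.Agent.Results.MP_840fa9_an.DeltaUC
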